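import Pool.Agent.Helper29.CY.Goals

/-!
# Packet CY-DIF (project CY, MP_eaa1a7_co): two targets with different normal spaces
-/

set_option autoImplicit false

open Module

namespace Pool.Agent.Helper22.CY.DIF

open Pool.Agent.Helper29.CY

section vec

variable {V : Type} [NormedAddCommGroup V] [InnerProductSpace ℝ V]

lemma self_one {a : V} (ha : ‖a‖ = 1) : inner ℝ a a = (1 : ℝ) := by
  rw [real_inner_self_eq_norm_sq, ha]; norm_num

lemma no_orth {a b : V} (ha : ‖a‖ = 1) (h : a ∈ Submodule.span ℝ {b})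
    (hab : inner ℝ a b = (0 : ℝ)) : False := by
  obtain ⟨c, hc⟩ := Submodule.mem_span_singleton.1 h
  have h2 : inner ℝ a (c • b) = c * inner ℝ a b := real_inner_smul_right _ _ _
  rw [hc, hab, mul_zero, self_one ha] at h2
  norm_num at h2

lemma no_half {a b : V} (ha : ‖a‖ = 1) (hb : ‖b‖ = 1) (h : a ∈ Submodule.span ℝ {b})
    (hab : |inner ℝ a b| ≤ 1 / 2) : False := by
  obtain ⟨c, hc⟩ := Submodule.mem_span_singleton.1 h
  have h2 : inner ℝ (c • b) b = c * inner ℝ b b := real_inner_smul_left _ _ _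
  rw [hc, self_one hb, mul_one] at h2
  have h3 : ‖c • b‖ = |c| * ‖b‖ := by rw [norm_smul, Real.norm_eq_abs]
  rw [hc, ha, hb, mul_one] at h3
  rw [h2, ← h3] at hab
  norm_num at hab

lemma orth3 {a b c : V} (ha : ‖a‖ = 1) (hb : ‖b‖ = 1) (hc : ‖c‖ = 1)
    (hab : inner ℝ a b = (0 : ℝ)) (hac : inner ℝ a c = (0 : ℝ)) (hbc : inner ℝ b c = (0 : ℝ)) :
    LinearIndependent ℝ ![a, b, c] := by
  rw [Fintype.linearIndependent_iff]
  intro g hg
  rw [Fin.sum_univ_three] at hg
  simp only [Matrix.cons_val_zero, Matrix.cons_val_one, Matrix.cons_val] at hg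
  have hba : inner ℝ b a = (0 : ℝ) := by rw [real_inner_comm]; exact hab
  have hca : inner ℝ c a = (0 : ℝ) := by rw [real_inner_comm]; exact hac
  have hcb : inner ℝ c b = (0 : ℝ) := by rw [real_inner_comm]; exact hbc
  have h1 := congrArg (fun x => inner ℝ x a) hg
  have h2 := congrArg (fun x => inner ℝ x b) hg
  have h3 := congrArg (fun x => inner ℝ x c) hg
  simp only [inner_add_left, real_inner_smul_left, self_one ha, self_one hb, self_one hc, hab,
    hac, hbc, hba, hca, hcb, inner_zero_left, mul_zero, mul_one, add_zero, zero_add] at h1 h2 h3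
  intro i
  fin_cases i
  · exact h1
  · exact h2
  · exact h3

lemma sp3 {P : Submodule ℝ V} {a b c : V} (hP : finrank ℝ P = 3) (pa : a ∈ P) (pb : b ∈ P)
    (pc : c ∈ P) (ha : ‖a‖ = 1) (hb : ‖b‖ = 1) (hc : ‖c‖ = 1)
    (hab : inner ℝ a b = (0 : ℝ)) (hac : inner ℝ a c = (0 : ℝ)) (hbc : inner ℝ b c = (0 : ℝ)) :
    P ≤ Submodule.span ℝ {a, b, c} := by
  have : FiniteDimensional ℝ P := Module.finite_of_finrank_pos (by omega)
  have hli := orth3 ha hb hc hab hac hbc
  have hf := finrank_span_eq_card hli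
  have hr : Set.range ![a, b, c] = {a, b, c} := by
    ext x
    constructor
    · rintro ⟨i, rfl⟩
      fin_cases i <;> simp
    · rintro (rfl | rfl | rfl)
      · exact ⟨0, rfl⟩
      · exact ⟨1, rfl⟩
      · exact ⟨2, rfl⟩
  rw [hr, Fintype.card_fin] at hf
  have hle : Submodule.span ℝ {a, b, c} ≤ P := by
    rw [Submodule.span_le]
    rintro x (rfl | rfl | rfl)
    · exact pa
    · exact pb
    · exact pc
  exact (Submodule.eq_of_le_of_finrank_le hle (by omega)).ge

lemma sp2 {P : Submodule ℝ V} {a b : V} (hP : finrank ℝ P = 2) (pa : a ∈ P) (pb : b ∈ P)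
    (ha : ‖a‖ = 1) (hb : ‖b‖ = 1) (hab : inner ℝ a b = (0 : ℝ)) :
    P ≤ Submodule.span ℝ {a, b} := by
  have : FiniteDimensional ℝ P := Module.finite_of_finrank_pos (by omega)
  have hba : inner ℝ b a = (0 : ℝ) := by rw [real_inner_comm]; exact hab
  have hli : LinearIndependent ℝ ![a, b] := by
    rw [LinearIndependent.pair_iff]
    intro s t hst
    have h1 := congrArg (fun x => inner ℝ x a) hst
    have h2 := congrArg (fun x => inner ℝ x b) hst
    simp only [inner_add_left, real_inner_smul_left, self_one ha, self_one hb, hab,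
      hba, inner_zero_left, mul_zero, mul_one, add_zero, zero_add] at h1 h2
    exact ⟨h1, h2⟩
  have hf := finrank_span_eq_card hli
  have hr : Set.range ![a, b] = {a, b} := by
    ext x
    constructor
    · rintro ⟨i, rfl⟩
      fin_cases i <;> simp
    · rintro (rfl | rfl)
      · exact ⟨0, rfl⟩
      · exact ⟨1, rfl⟩
  rw [hr, Fintype.card_fin] at hf
  have hle : Submodule.span ℝ {a, b} ≤ P := by
    rw [Submodule.span_le]
    rintro x (rfl | rfl)
    · exact pa
    · exact pb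
  exact (Submodule.eq_of_le_of_finrank_le hle (by omega)).ge

/-- coordinates in an orthonormal triple. -/
lemma rep3 {a b c v : V} (h : v ∈ Submodule.span ℝ {a, b, c}) (ha : ‖a‖ = 1) (hb : ‖b‖ = 1)
    (hc : ‖c‖ = 1) (hab : inner ℝ a b = (0 : ℝ)) (hac : inner ℝ a c = (0 : ℝ))
    (hbc : inner ℝ b c = (0 : ℝ)) :
    v = (inner ℝ v a : ℝ) • a + (inner ℝ v b : ℝ) • b + (inner ℝ v c : ℝ) • c ∧
      (inner ℝ v v : ℝ) = (inner ℝ v a : ℝ) ^ 2 + (inner ℝ v b : ℝ) ^ 2 + (inner ℝ v c : ℝ) ^ 2 := by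
  obtain ⟨x, y, z, rfl⟩ := Submodule.mem_span_triple.1 h
  have hba : inner ℝ b a = (0 : ℝ) := by rw [real_inner_comm]; exact hab
  have hca : inner ℝ c a = (0 : ℝ) := by rw [real_inner_comm]; exact hac
  have hcb : inner ℝ c b = (0 : ℝ) := by rw [real_inner_comm]; exact hbc
  simp only [inner_add_left, inner_add_right, real_inner_smul_left, real_inner_smul_right,
    self_one ha, self_one hb, self_one hc, hab, hac, hbc, hba, hca, hcb, mul_zero, mul_one,
    add_zero, zero_add]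
  exact ⟨trivial, by ring⟩

lemma rep2 {a b v : V} (h : v ∈ Submodule.span ℝ {a, b}) (ha : ‖a‖ = 1) (hb : ‖b‖ = 1)
    (hab : inner ℝ a b = (0 : ℝ)) :
    v = (inner ℝ v a : ℝ) • a + (inner ℝ v b : ℝ) • b := by
  obtain ⟨x, y, rfl⟩ := Submodule.mem_span_pair.1 h
  have hba : inner ℝ b a = (0 : ℝ) := by rw [real_inner_comm]; exact hab
  simp only [inner_add_left, real_inner_smul_left,
    self_one ha, self_one hb, hab, hba, mul_zero, mul_one,
    add_zero, zero_add]

end vec

/-! Small numerical facts, each in a small context. -/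

lemma n1 {a : ℝ} (h : |a| ≤ 1 / 2) : a ^ 2 ≤ 1 / 4 := by
  rw [← sq_abs]
  nlinarith [abs_nonneg a]

lemma n2 {a t : ℝ} (h : a ^ 2 + t ^ 2 ≤ 1) : |a| ≤ 1 := by
  have : a ^ 2 ≤ 1 := by linarith [sq_nonneg t]
  rw [← abs_one]
  exact sq_le_sq.1 (by linarith)

lemma n3 {r x : ℝ} (h0 : 0 ≤ x) (hr : r ≤ 1 / 4) (h : 1 - r ≤ x ^ 2) : 86 / 100 ≤ x := by
  by_contra hcon
  push Not at hcon
  have : x ^ 2 < (86 / 100) ^ 2 := pow_lt_pow_left₀ hcon h0 two_ne_zero
  linarith

lemma n4 {a e : ℝ} (he : 0 ≤ e) (h0 : 0 ≤ a - e) (h : 3 / 4 ≤ (a - e) ^ 2) :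
    3 / 4 ≤ a ^ 2 :=
  h.trans (pow_le_pow_left₀ h0 (by linarith) 2)

lemma n5 {S : ℝ} (hS : 0 ≤ S) (h : S ^ 2 ≤ 1 / 4) : S ≤ 1 / 2 := by
  by_contra hcon
  push Not at hcon
  have : (1 / 2 : ℝ) ^ 2 < S ^ 2 := pow_lt_pow_left₀ hcon (by norm_num) two_ne_zero
  linarith

lemma n6 {a b : ℝ} (ha : 0 ≤ a) (hb : 0 ≤ b) (ha34 : 3 / 4 ≤ a ^ 2) (hb34 : 3 / 4 ≤ b ^ 2) :
    3 / 4 ≤ a * b := by
  by_contra hcon
  push Not at hcon
  have h1 : (a * b) ^ 2 < (3 / 4) ^ 2 := pow_lt_pow_left₀ hcon (mul_nonneg ha hb) two_ne_zero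
  have h2 : (3 / 4 : ℝ) * (3 / 4) ≤ a ^ 2 * b ^ 2 :=
    mul_le_mul ha34 hb34 (by norm_num) (sq_nonneg a)
  rw [mul_pow] at h1
  linarith

lemma n7 (a b S s : ℝ) (ha : 0 ≤ a) (hb : 0 ≤ b) (hS : 0 ≤ S) (hs : 0 ≤ s)
    (h1 : a ^ 2 + S ^ 2 = 1) (h2 : b ^ 2 + s ^ 2 = 1) (ha34 : 3 / 4 ≤ a ^ 2)
    (hb34 : 3 / 4 ≤ b ^ 2) : (b * S + s * a) ^ 2 ≤ 3 / 4 := by
  have h3 : S ≤ 1 / 2 := n5 hS (by linarith)
  have h4 : s ≤ 1 / 2 := n5 hs (by linarith)
  have h5 := n6 ha hb ha34 hb34
  have h6 : s * S ≤ 1 / 2 * (1 / 2) := mul_le_mul h4 h3 hS (by norm_num)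
  have h7 : (b * S + s * a) ^ 2 + (a * b - s * S) ^ 2 = 1 := by
    have : (b * S + s * a) ^ 2 + (a * b - s * S) ^ 2 = (a ^ 2 + S ^ 2) * (b ^ 2 + s ^ 2) := by
      ring
    rw [this, h1, h2, mul_one]
  have h8 : (1 / 2 : ℝ) ^ 2 ≤ (a * b - s * S) ^ 2 :=
    pow_le_pow_left₀ (by norm_num) (by linarith) 2
  linarith

/-- the numerical part. -/
lemma alg (α η κ η' κ' s τ c : ℝ) (hα : |α| ≤ 1 / 2) (hκ : κ ^ 2 + τ ^ 2 ≤ 1)
    (hκ' : κ' ^ 2 + s ^ 2 = 1) (hc : c = κ' * τ + s * κ) (h1 : |η| < |κ|)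
    (h2 : 1 - α ^ 2 ≤ (|κ| - |η|) ^ 2) (h3 : |η'| < |κ'|) (h4 : 1 - α ^ 2 ≤ (|κ'| - |η'|) ^ 2) :
    c ^ 2 ≤ 3 / 4 ∧ |η| ≤ 14 / 100 ∧ |η'| ≤ 14 / 100 := by
  have hα2 := n1 hα
  have hk1 : |κ| ≤ 1 := n2 hκ
  have hk1' : |κ'| ≤ 1 := n2 hκ'.le
  have hr := n3 (by linarith) hα2 h2
  have hr' := n3 (by linarith) hα2 h4
  refine ⟨?_, by linarith, by linarith⟩
  have ha34 : 3 / 4 ≤ |κ| ^ 2 := n4 (abs_nonneg η) (by linarith) (by linarith)
  have hb34 : 3 / 4 ≤ |κ'| ^ 2 := n4 (abs_nonneg η') (by linarith) (by linarith)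
  have hk2 : |κ| ^ 2 = κ ^ 2 := sq_abs κ
  have hS2 : Real.sqrt (1 - |κ| ^ 2) ^ 2 = 1 - |κ| ^ 2 :=
    Real.sq_sqrt (by rw [hk2]; linarith [sq_nonneg τ])
  have htS : |τ| ≤ Real.sqrt (1 - |κ| ^ 2) := Real.le_sqrt_of_sq_le (by
    rw [hk2, sq_abs]; linarith)
  have h7 := n7 |κ| |κ'| (Real.sqrt (1 - |κ| ^ 2)) |s| (abs_nonneg _) (abs_nonneg _)
    (Real.sqrt_nonneg _) (abs_nonneg _) (by rw [hS2]; ring) (by rw [sq_abs, sq_abs]; exact hκ')
    ha34 hb34
  refine le_trans ?_ h7
  rw [← sq_abs c]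
  refine pow_le_pow_left₀ (abs_nonneg c) ?_ 2
  rw [hc]
  refine (abs_add_le _ _).trans ?_
  rw [abs_mul, abs_mul]
  have := mul_le_mul_of_nonneg_left htS (abs_nonneg κ')
  linarith

lemma n8 {α d η η' c : ℝ} (hα : α ^ 2 ≤ 1 / 4) (hd : 1 / 4 ≤ d) (hc : c ^ 2 ≤ 3 / 4)
    (hη : |η| ≤ 14 / 100) (hη' : |η'| ≤ 14 / 100)
    (h : (1 - α ^ 2) * d = η ^ 2 + η' ^ 2 - 2 * c * (η * η')) : False := by
  have hL : (3 / 4 : ℝ) * (1 / 4) ≤ (1 - α ^ 2) * d :=
    mul_le_mul (by linarith) hd (by norm_num) (by linarith)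
  have hc1 : |c| ≤ 1 := by
    rw [← abs_one]
    exact sq_le_sq.1 (by linarith)
  have h1 : |c * (η * η')| ≤ 1 * (14 / 100 * (14 / 100)) := by
    rw [abs_mul, abs_mul]
    exact mul_le_mul hc1 (mul_le_mul hη hη' (abs_nonneg _) (by norm_num))
      (mul_nonneg (abs_nonneg _) (abs_nonneg _)) (by norm_num)
  have h2 := neg_abs_le (c * (η * η'))
  have h3 : η ^ 2 ≤ (14 / 100) ^ 2 := by
    rw [← sq_abs]
    exact pow_le_pow_left₀ (abs_nonneg _) hη 2
  have h4 : η' ^ 2 ≤ (14 / 100) ^ 2 := by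
    rw [← sq_abs]
    exact pow_le_pow_left₀ (abs_nonneg _) hη' 2
  linarith

lemma n9 {α h η : ℝ} (hα : α ^ 2 ≤ 1 / 4) (hn : (1 : ℝ) = α ^ 2 + η ^ 2)
    (hh : |h| ^ 2 = η ^ 2) (h2 : 1 - α ^ 2 ≤ (1 - |h|) ^ 2) : False := by
  nlinarith [abs_nonneg h]

section vec2

variable {V : Type} [NormedAddCommGroup V] [InnerProductSpace ℝ V]

/-- a member of the second kind for both targets does not exist. -/
lemma noL1L1 {e uk uk' y y' ul : V} {P : Submodule ℝ V} (hP : finrank ℝ P = 3) (pe : e ∈ P)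
    (py : y ∈ P) (py' : y' ∈ P) (pl : ul ∈ P) (ne : ‖e‖ = 1) (nk : ‖uk‖ = 1) (nk' : ‖uk'‖ = 1)
    (ny : ‖y‖ = 1) (ny' : ‖y'‖ = 1) (nl : ‖ul‖ = 1) (hek : inner ℝ e uk = (0 : ℝ))
    (hek' : inner ℝ e uk' = (0 : ℝ)) (hkk : inner ℝ uk uk' = (0 : ℝ))
    (hey : inner ℝ e y = (0 : ℝ)) (hey' : inner ℝ e y' = (0 : ℝ))
    (hy' : y' ∈ Submodule.span ℝ {e, uk, uk'}) (hα : |(inner ℝ ul e : ℝ)| ≤ 1 / 2)
    (h1 : |(inner ℝ ul y : ℝ)| < |(inner ℝ uk y : ℝ)|)
    (h2 : 1 - (inner ℝ ul e : ℝ) ^ 2 ≤ (|(inner ℝ uk y : ℝ)| - |(inner ℝ ul y : ℝ)|) ^ 2)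
    (h3 : |(inner ℝ ul y' : ℝ)| < |(inner ℝ uk' y' : ℝ)|)
    (h4 : 1 - (inner ℝ ul e : ℝ) ^ 2 ≤ (|(inner ℝ uk' y' : ℝ)| - |(inner ℝ ul y' : ℝ)|) ^ 2) :
    False := by
  have hkk' : inner ℝ uk' uk = (0 : ℝ) := by rw [real_inner_comm]; exact hkk
  have hye : inner ℝ y e = (0 : ℝ) := by rw [real_inner_comm]; exact hey
  have hye' : inner ℝ y' e = (0 : ℝ) := by rw [real_inner_comm]; exact hey'
  obtain ⟨hr, hn⟩ := rep3 hy' ne nk nk' hek hek' hkk
  rw [hye', self_one ny', zero_smul, zero_add] at *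
  -- Bessel for `y`
  set τ : ℝ := inner ℝ y uk' with hτ
  set κ : ℝ := inner ℝ uk y with hκ
  have hκ2 : inner ℝ y uk = κ := by rw [real_inner_comm]
  set κ' : ℝ := inner ℝ uk' y' with hκ'
  have hκ2' : inner ℝ y' uk' = κ' := by rw [real_inner_comm]
  set s : ℝ := inner ℝ y' uk with hs
  set α : ℝ := inner ℝ ul e with hαd
  set η : ℝ := inner ℝ ul y with hη
  set η' : ℝ := inner ℝ ul y' with hη'
  have hb : κ ^ 2 + τ ^ 2 ≤ 1 := by
    have h5 : 0 ≤ inner ℝ (y - κ • uk - τ • uk') (y - κ • uk - τ • uk') :=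
      real_inner_self_nonneg
    have h6 : inner ℝ uk' y = τ := by rw [real_inner_comm]
    simp only [inner_sub_left, inner_sub_right, real_inner_smul_left, real_inner_smul_right,
      self_one ny, self_one nk, self_one nk', hkk, hkk', hκ2, h6, ← hτ, ← hκ] at h5
    linarith
  have hk1 : κ' ^ 2 + s ^ 2 = 1 := by
    rw [hκ2'] at hn
    linarith
  set c : ℝ := inner ℝ y y' with hcd
  have hc : c = κ' * τ + s * κ := by
    rw [hκ2'] at hr
    have h7 : inner ℝ y (s • uk + κ' • uk') = s * inner ℝ y uk + κ' * inner ℝ y uk' := by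
      rw [inner_add_right, real_inner_smul_right, real_inner_smul_right]
    rw [← hr] at h7
    rw [hcd, h7, hκ2, ← hτ]
    ring
  obtain ⟨hc34, hηb, hηb'⟩ := alg α η κ η' κ' s τ c hα hb hk1 hc h1 h2 h3 h4
  -- the third vector
  set d : ℝ := 1 - c ^ 2 with hd
  have hd0 : 0 < d := by rw [hd]; linarith
  set q : ℝ := Real.sqrt d with hq
  have hq2 : q ^ 2 = d := Real.sq_sqrt hd0.le
  have hq0 : 0 < q := Real.sqrt_pos.2 hd0
  set w : V := (1 / q) • (y' - c • y) with hw
  have hcy : inner ℝ y' y = c := by rw [real_inner_comm]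
  have hew : inner ℝ e w = (0 : ℝ) := by
    rw [hw, real_inner_smul_right, inner_sub_right, real_inner_smul_right, hey, hey']
    ring
  have hyw : inner ℝ y w = (0 : ℝ) := by
    rw [hw, real_inner_smul_right, inner_sub_right, real_inner_smul_right, self_one ny, ← hcd]
    ring
  have hww : inner ℝ w w = (1 : ℝ) := by
    have h8 : inner ℝ (y' - c • y) (y' - c • y) = d := by
      simp only [inner_sub_left, inner_sub_right, real_inner_smul_left, real_inner_smul_right,
        self_one ny, self_one ny', hcy, ← hcd]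
      rw [hd]
      ring
    rw [hw, real_inner_smul_left, real_inner_smul_right, h8, ← hq2]
    field_simp
  have nw : ‖w‖ = 1 := by
    have h9 : ‖w‖ ^ 2 = 1 := by rw [← real_inner_self_eq_norm_sq, hww]
    exact (pow_eq_one_iff_of_nonneg (norm_nonneg w) two_ne_zero).1 h9
  have pw : w ∈ P := P.smul_mem _ (P.sub_mem py' (P.smul_mem _ py))
  have hle := sp3 hP pe py pw ne ny nw hey hew hyw
  obtain ⟨-, hn2⟩ := rep3 (hle pl) ne ny nw hey hew hyw
  rw [self_one nl, ← hαd, ← hη] at hn2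
  have hlw : inner ℝ ul w = 1 / q * (η' - c * η) := by
    rw [hw, real_inner_smul_right, inner_sub_right, real_inner_smul_right]
  have h10 : (inner ℝ ul w : ℝ) ^ 2 * d = (η' - c * η) ^ 2 := by
    rw [hlw, ← hq2]
    field_simp
  have h11 : (1 - α ^ 2) * d = η ^ 2 + η' ^ 2 - 2 * c * (η * η') := by
    have h12 : (1 - α ^ 2) * d = η ^ 2 * d + (inner ℝ ul w : ℝ) ^ 2 * d := by
      rw [hn2]; ring
    rw [h12, h10, hd]
    ring
  exact n8 (n1 hα) (by rw [hd]; linarith) hc34 hηb hηb' h11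

end vec2

theorem t (hLA : S_LA) (hPL3 : S_PL3) (hBAS : S_BAS) (hNBR : S_NBR) (hELL : S_ELL) :
    Pool.Agent.Helper29.CY.S_DIF := by
  intro n V _ _ N u hC i k k' hik hik' hkk' hN huk hT
  classical
  have BA := hBAS n V N u hC
  obtain ⟨TGT, SRC, MEM, INN, OUT⟩ := hNBR n V N u hC
  have EL := hELL n V N u hC
  obtain ⟨LA1, LA2, LA3, LA4⟩ := hLA
  have half : ∀ a b, a ≠ b → |inner ℝ (u a) (u b)| ≤ 1 / 2 := fun a b h => (BA a b h).1
  have col := fun a b h => (BA a b h).2.2.2.1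
  have tri := fun a b h => (BA a b h).2.2.2.2.1
  have exc := fun a b h => (BA a b h).2.2.2.2.2
  have nrm := hC.nrm
  have dim := hC.dim
  have mem := hC.mem
  have NRc : ∀ a b, NR N a b → NR N b a := fun a b h => by
    unfold NR at h ⊢
    rwa [inf_comm]
  have cm : ∀ a b : V, inner ℝ a b = (0 : ℝ) → inner ℝ b a = (0 : ℝ) := fun a b h => by
    rw [real_inner_comm]; exact h
  have plane2 : ∀ a b, N a ≠ N b → NR N a b → finrank ℝ ↥(N a ⊓ N b) = 2 := fun a b h h' =>
    le_antisymm (LA2 V (N a) (N b) (dim a) (dim b) h) h'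
  obtain ⟨nik, eik, oik, sik⟩ := id hik
  obtain ⟨nik', eik', oik', sik'⟩ := id hik'
  -- the normal space of `k'`
  have hNR : NR N k' k := TGT i k' k hik' hik hkk'.symm
  have hP : N k' ⊓ N k ≤ Submodule.span ℝ {u i, u k} :=
    sp2 (plane2 k' k hN.symm hNR) ⟨eik', eik⟩ ⟨huk, mem k⟩ (nrm i) (nrm k) oik
  have huu : inner ℝ (u k') (u k) = (0 : ℝ) := by
    rcases col k' k hkk'.symm (u i) (u k) (nrm i) (nrm k) oik hP (cm _ _ oik') (cm _ _ oik) with
      ⟨_, h⟩ | ⟨_, h⟩
    · rw [self_one (nrm k)] at h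
      norm_num at h
    · exact h
  have huu' := cm _ _ huu
  have hspk' : N k' ≤ Submodule.span ℝ {u i, u k, u k'} :=
    sp3 (dim k') eik' huk (mem k') (nrm i) (nrm k) (nrm k') oik oik' huu'
  -- pm facts
  have pm : ∀ (P : Submodule ℝ V) (a w : V), (a = w ∨ a = -w) → w ∈ P → a ∈ P := by
    rintro P a w (rfl | rfl) h
    · exact h
    · exact P.neg_mem h
  have pm' : ∀ (P : Submodule ℝ V) (a w : V), (a = w ∨ a = -w) → a ∈ P → w ∈ P := by
    rintro P a w (rfl | rfl) h
    · exact h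
    · exact P.neg_mem_iff.1 h
  have pmi : ∀ (a w b : V), (a = w ∨ a = -w) → inner ℝ b w = (0 : ℝ) →
      inner ℝ b a = (0 : ℝ) := by
    rintro a w b (rfl | rfl) h
    · exact h
    · rw [inner_neg_right, h, neg_zero]
  have sp1 : ∀ (a w : V), (a = w ∨ a = -w) → a ∈ Submodule.span ℝ {w} := by
    rintro a w (rfl | rfl)
    · exact Submodule.mem_span_singleton_self _
    · exact Submodule.neg_mem _ (Submodule.mem_span_singleton_self _)
  -- the classes
  have claim : ∀ l : Fin n, l ≠ i → l ≠ k → l ≠ k' → ¬ Arr N u l i → InE N u k l := by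
    intro l hli hlk hlk' hnl
    rcases tri l i hli with hNRli | hA | hil
    swap
    · exact absurd hA hnl
    · -- `NR l i`
      rcases tri l k hlk with hNRlk | hAlk | hAkl
      · -- `NR l k`
        obtain ⟨x, y, hL | hL⟩ := EL i k l hik hNRli hNRlk
        · obtain ⟨hF, h1, h2⟩ := hL
          refine ⟨?_, ?_⟩
          · rw [h2]
            exact (N k).add_mem ((N k).smul_mem _ eik) ((N k).smul_mem _ hF.yk)
          · rw [h2, inner_add_left, real_inner_smul_left, real_inner_smul_left, oik,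
              cm _ _ h1, mul_zero, mul_zero, add_zero]
        · exfalso
          obtain ⟨hF, h1, h2⟩ := hL
          have hNRlk' : NR N l k' := by
            rcases tri l k' hlk' with h | h | h
            · exact h
            · exact (no_half (nrm i) (nrm l) (h.2.2.2 ⟨hF.el, eik'⟩)
                (half i l hli.symm)).elim
            · exact (no_orth (nrm i) (h.2.2.2 ⟨eik', hF.el⟩) oik').elim
          obtain ⟨x', y', hL' | hL'⟩ := EL i k' l hik' hNRli hNRlk'
          · obtain ⟨hF', h1', h2'⟩ := hL'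
            have hy1 : y' = (inner ℝ y' (u k) : ℝ) • u k := by
              have h3 := (rep3 (hspk' hF'.yk) (nrm i) (nrm k) (nrm k') oik oik' huu').1
              rw [cm _ _ hF'.ey, cm _ _ h1', zero_smul, zero_smul, zero_add, add_zero] at h3
              exact h3
            set c : ℝ := inner ℝ y' (u k) with hc
            have hc1 : |c| = 1 := by
              have h4 : ‖y'‖ = |c| * ‖u k‖ := by
                conv_lhs => rw [hy1]
                rw [norm_smul, Real.norm_eq_abs]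
              rw [hF'.yn, nrm k, mul_one] at h4
              exact h4.symm
            have hc2 : c ^ 2 = 1 := by rw [← sq_abs, hc1, one_pow]
            have hukl : u k ∈ N l := by
              have h5 : c • y' ∈ N l := (N l).smul_mem _ hF'.yl
              rw [hy1, smul_smul, ← pow_two, hc2, one_smul] at h5
              exact h5
            have h6 := rep2 (hF.lk ⟨hukl, mem k⟩) (nrm i) hF.yn hF.ey
            rw [cm _ _ oik, zero_smul, zero_add] at h6
            set κ : ℝ := inner ℝ (u k) y with hκ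
            have hκ1 : |κ| = 1 := by
              have h4 : ‖u k‖ = |κ| * ‖y‖ := by
                conv_lhs => rw [h6]
                rw [norm_smul, Real.norm_eq_abs]
              rw [hF.yn, nrm k, mul_one] at h4
              exact h4.symm
            have hα := half l i hli
            set α : ℝ := inner ℝ (u l) (u i) with hαd
            set η' : ℝ := inner ℝ (u l) y' with hη'
            have hn : (1 : ℝ) = α ^ 2 + η' ^ 2 := by
              have h7 : inner ℝ (u l) (α • u i + η' • y') = α * α + η' * η' := by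
                rw [inner_add_right, real_inner_smul_right, real_inner_smul_right]
              rw [← h2', self_one (nrm l)] at h7
              rw [h7]; ring
            have hη : (inner ℝ (u l) y : ℝ) ^ 2 = η' ^ 2 := by
              have h8 : η' = c * (κ * inner ℝ (u l) y) := by
                have h9 : inner ℝ (u l) (c • u k) = c * inner ℝ (u l) (u k) :=
                  real_inner_smul_right _ _ _
                have h10 : inner ℝ (u l) (κ • y) = κ * inner ℝ (u l) y :=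
                  real_inner_smul_right _ _ _
                rw [← h6] at h10
                rw [← hy1, h10] at h9
                exact h9
              have hκ2 : κ ^ 2 = 1 := by rw [← sq_abs, hκ1, one_pow]
              rw [h8, mul_pow, mul_pow, hc2, hκ2]
              ring
            rw [hκ1] at h2 h1
            have hη2 : |(inner ℝ (u l) y : ℝ)| ^ 2 = η' ^ 2 := by rw [sq_abs, hη]
            exact n9 (n1 hα) hn hη2 h2
          · obtain ⟨hF', h1', h2'⟩ := hL'
            exact noL1L1 (dim l) hF.el hF.yl hF'.yl (mem l) (nrm i) (nrm k) (nrm k') hF.yn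
              hF'.yn (nrm l) oik oik' huu' hF.ey hF'.ey (hspk' hF'.yk) (half l i hli) h1 h2
              h1' h2'
      · exact ⟨hAlk.2.1, hAlk.2.2.1⟩
      · exfalso
        obtain ⟨_, h1, h2, h3⟩ := hAkl
        rcases tri l k' hlk' with h | h | h
        · have h4 := MEM i k' l hik' hNRli h
          exact no_orth (nrm i) (h3 ⟨eik, h4⟩) oik
        · exact no_half (nrm k) (nrm l) (h.2.2.2 ⟨h1, huk⟩) (half k l hlk.symm)
        · exact no_orth (nrm k) (h.2.2.2 ⟨huk, h1⟩) huu'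
    · -- `i -> l`
      obtain ⟨_, h1, h2, h3⟩ := id hil
      have hNkl : N k ≠ N l := hT k l hik hil hlk.symm
      obtain ⟨w, wP, wn, ew, hsp⟩ := LA3 V (N k ⊓ N l) (u i)
        (plane2 k l hNkl (TGT i k l hik hil hlk.symm)) ⟨eik, h1⟩ (nrm i)
      rcases col k l hlk.symm (u i) w (nrm i) wn ew hsp (cm _ _ oik) (cm _ _ h2) with
        ⟨h4, h5⟩ | ⟨h4, h5⟩
      · exfalso
        have hkl : u k ∈ N l := pm _ _ _ h4 wP.2
        have hNkl' : N k' ≠ N l := hT k' l hik' hil hlk'.symm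
        have hsp' : N k' ⊓ N l ≤ Submodule.span ℝ {u i, u k} :=
          sp2 (plane2 k' l hNkl' (TGT i k' l hik' hil hlk'.symm)) ⟨eik', h1⟩ ⟨huk, hkl⟩
            (nrm i) (nrm k) oik
        rcases col k' l hlk'.symm (u i) (u k) (nrm i) (nrm k) oik hsp' (cm _ _ oik')
          (cm _ _ h2) with ⟨h6, _⟩ | ⟨h6, _⟩
        · exact no_orth (nrm k') (sp1 _ _ h6) huu
        · exact no_half (nrm l) (nrm k) (sp1 _ _ h6) (half l k hlk)
      · exact ⟨pm _ _ _ h4 wP.1, cm _ _ (pmi _ _ _ h4 h5)⟩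
  -- at most one source
  have srcs : ∀ m m' : Fin n, Arr N u m i → Arr N u m' i → m = m' := by
    have key : ∀ m m' : Fin n, Arr N u m i → Arr N u m' i → m ≠ m' → Arr N u k m → False := by
      intro m m' hm hm' hmm hkm
      obtain ⟨nmi, emi, omi, smi⟩ := id hm
      obtain ⟨nmi', emi', omi', smi'⟩ := id hm'
      obtain ⟨nkm, ekm, okm, skm⟩ := id hkm
      have hmk' : m ≠ k' := by
        rintro rfl
        exact (exc i m nik' hik').2 hm
      have hmk'' : m' ≠ k' := by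
        rintro rfl
        exact (exc i m' nik' hik').2 hm'
      -- not a source of `k'`
      have nosrc : ∀ a, Arr N u a i → ¬ Arr N u a k' := fun a ha hak => by
        have h1 := SRC i a k' hik' hak (fun h => ha.1 h.symm)
        exact (exc a i ha.1 ha).1 (NRc _ _ h1)
      have hNR1 : NR N m k' := by
        rcases tri m k' hmk' with h | h | h
        · exact h
        · exact (nosrc m hm h).elim
        · exact (no_orth (nrm k) (h.2.2.2 ⟨huk, ekm⟩) huu').elim
      have hk'm' : Arr N u k' m' := by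
        rcases tri m' k' hmk'' with h | h | h
        · exact (INN i k' m m' hik' hm hm' hmm hNR1 h).elim
        · exact (nosrc m' hm' h).elim
        · exact h
      obtain ⟨_, ekm', okm', _⟩ := id hk'm'
      have hNmk' : N m ≠ N k' := by
        intro h
        refine no_orth (nrm i) (smi ⟨?_, mem i⟩) (cm _ _ omi)
        rw [h]
        exact eik'
      obtain ⟨τ, τP, τn, oτ, hsp⟩ := LA3 V (N m ⊓ N k') (u k) (plane2 m k' hNmk' hNR1)
        ⟨ekm, huk⟩ (nrm k)
      rcases col m k' hmk' (u k) τ (nrm k) τn oτ hsp (cm _ _ okm) huu with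
        ⟨h4, h5⟩ | ⟨h4, h5⟩
      · exact no_orth (nrm m) (sik' ⟨emi, pm _ _ _ h4 τP.2⟩) omi
      · have h6 : u k' ∈ N m := pm _ _ _ h4 τP.1
        have h7 : inner ℝ (u m) (u k') = (0 : ℝ) := pmi _ _ _ h4 h5
        have hNRmm := SRC m m' i hm hm' hmm
        have hNmm : N m ≠ N m' := by
          intro h
          refine no_half (nrm m') (nrm m) (smi ⟨?_, emi'⟩) (half m' m hmm.symm)
          rw [h]
          exact mem m'
        obtain ⟨w, wP, wn, ow, hsp'⟩ := LA3 V (N m ⊓ N m') (u k') (plane2 m m' hNmm hNRmm)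
          ⟨h6, ekm'⟩ (nrm k')
        rcases col m m' hmm (u k') w (nrm k') wn ow hsp' h7 (cm _ _ okm') with
          ⟨h8, _⟩ | ⟨h8, _⟩
        · exact no_half (nrm m) (nrm m') (smi' ⟨pm _ _ _ h8 wP.2, emi⟩) (half m m' hmm)
        · exact no_half (nrm m') (nrm m) (smi ⟨pm _ _ _ h8 wP.1, emi'⟩) (half m' m hmm.symm)
    intro m m' hm hm'
    by_contra hmm
    have hmk : m ≠ k := by
      rintro rfl
      exact (exc i m nik hik).2 hm
    have hmk' : m' ≠ k := by
      rintro rfl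
      exact (exc i m' nik hik).2 hm'
    have nosrc : ∀ a, Arr N u a i → ¬ Arr N u a k := fun a ha hak => by
      have h1 := SRC i a k hik hak (fun h => ha.1 h.symm)
      exact (exc a i ha.1 ha).1 (NRc _ _ h1)
    rcases tri m k hmk with h | h | h
    · rcases tri m' k hmk' with h' | h' | h'
      · exact INN i k m m' hik hm hm' hmm h h'
      · exact nosrc m' hm' h'
      · exact key m' m hm' hm (fun h => hmm h.symm) h'
    · exact nosrc m hm h
    · exact key m m' hm hm' hmm h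
  -- the count
  have : FiniteDimensional ℝ ↥(N k) := Module.finite_of_finrank_pos (by rw [dim k]; norm_num)
  set E : Submodule ℝ V := (Submodule.span ℝ {u k})ᗮ ⊓ N k with hE
  have hEd : finrank ℝ ↥E = 2 := by
    refine Submodule.finrank_add_inf_finrank_orthogonal' ?_ ?_
    · rw [Submodule.span_singleton_le_iff_mem]
      exact mem k
    · rw [dim k, finrank_span_singleton (K := ℝ) (v := u k) (by
        intro h
        have := nrm k
        rw [h, norm_zero] at this
        norm_num at this)]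
  have hmemE : ∀ v : V, v ∈ N k → inner ℝ v (u k) = (0 : ℝ) → v ∈ E := by
    intro v hv h
    refine Submodule.mem_inf.2 ⟨?_, hv⟩
    rw [Submodule.mem_orthogonal_singleton_iff_inner_left]
    exact h
  set A : Finset (Fin n) := Finset.univ.filter fun l => l ≠ i ∧ InE N u k l with hA
  set I : Finset (Fin n) := Finset.univ.filter fun l => Arr N u l i with hI
  have hAc : (insert i A).card ≤ 3 := by
    refine hPL3 V (Fin n) E u (insert i A) hEd ?_ (fun a _ => nrm a) (fun a _ b _ h => half a b h)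
    intro a ha
    rw [Finset.mem_insert] at ha
    rcases ha with rfl | ha
    · exact hmemE _ eik oik
    · obtain ⟨_, h1⟩ := (Finset.mem_filter.1 ha).2
      exact hmemE _ h1.1 h1.2
  have hIc : I.card ≤ 1 := by
    rw [Finset.card_le_one]
    intro a ha b hb
    exact srcs a b (Finset.mem_filter.1 ha).2 (Finset.mem_filter.1 hb).2
  have huniv : (Finset.univ : Finset (Fin n)) ⊆ insert i A ∪ I ∪ {k, k'} := by
    intro l _
    simp only [Finset.mem_union, Finset.mem_insert, Finset.mem_singleton]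
    by_cases h1 : l = i
    · exact Or.inl (Or.inl (Or.inl h1))
    by_cases h2 : l = k
    · exact Or.inr (Or.inl h2)
    by_cases h3 : l = k'
    · exact Or.inr (Or.inr h3)
    by_cases h4 : Arr N u l i
    · exact Or.inl (Or.inr (Finset.mem_filter.2 ⟨Finset.mem_univ _, h4⟩))
    · exact Or.inl (Or.inl (Or.inr (Finset.mem_filter.2 ⟨Finset.mem_univ _, h1,
        claim l h1 h2 h3 h4⟩)))
  have hcard := Finset.card_le_card huniv
  rw [Finset.card_univ, Fintype.card_fin] at hcard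
  have h1 := Finset.card_union_le (insert i A ∪ I) {k, k'}
  have h2 := Finset.card_union_le (insert i A) I
  have h3 : ({k, k'} : Finset (Fin n)).card ≤ 2 := Finset.card_le_two
  omega

end Pool.Agent.Helper22.CY.DIF
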